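import Mathlib
import Pool.Agent.Q1.M6b.TayWok
import Pool.Agent.H20.Sp.WinC
import Pool.Agent.H5.FM.WinCo
import Pool.Agent.H5.FM.Ring3

set_option autoImplicit false
open Finset

/-! # Chapters A and B for a sequence of windows of a shape -/

namespace Pool.Agent.H56.Sp

open Pool.Agent.H46.Sp (Win Out)
open Pool.Agent.H74.Win
open Pool.Agent.Q1.M6b.ABW
open Pool.Agent.H31.Sp (CoarseC)
open Pool.Agent.H13.Sp (colp colq nP)
open Pool.Agent.H20.Sp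
open Pool.Agent.H30.Sp (Few)
open Pool.Agent.H5.FM
open Pool.Agent.H21.FM (Shape)

/-- chains at a larger distance -/
lemma aba_mono {S : ℕ → Set (Σ D : Win, Out D)} {η η' : ℝ} (h : ABA S η') (hη : η' ≤ η) :
    ABA S η := by
  intro n ρ hρ ε hε
  obtain ⟨R0, h1⟩ := h n ρ hρ ε hε
  refine ⟨R0, fun R hR v hv u hu Hl Hu hl hh p q hpq => h1 R hR v hv u hu Hl Hu hl hh p q ?_⟩
  obtain ⟨z, z0, z1, z2⟩ := hpq
  exact ⟨z, z0, z1, fun i hi => lnk_mono (z2 i hi) (mul_le_mul_of_nonneg_right hη (Nat.cast_nonneg R))⟩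

/-- the class of a sequence of windows -/
def SQ (D : ℕ → Win) (O : ∀ j, OutB (D j)) (r : ℕ) : Set (Σ D : Win, Out D) :=
  {v | ∃ j : ℕ, 30 ≤ j ∧ r = 2 * j ∧ v = ⟨D j, (O j).out⟩}

/-- the width of a coarse window -/
lemma width_C {D : Win} {n H : ℤ} {A B : ℤ → ℤ} {YP YQ : ℤ} {CL CR : ℤ → Bool}
    (C : CoarseC D n H A B YP YQ CL CR) :
    D.b D.yQ - D.a (D.yP - 1) ≤ n * (B YQ - A (YP - 1) + 1) := by
  have hn := C.hn
  have hP0 := D.P0
  have hP1 := D.P1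
  have hQ0 := D.Q0
  have hQ1 := D.Q1
  have e1 := C.yP
  have e2 := C.yQ
  have h1 : (D.yP - 1) / n = YP - 1 := by
    rw [e1, show n * YP - 1 = n * (YP - 1) + (n - 1) by ring, Int.add_comm, Int.add_mul_ediv_left _ _ (by omega),
      Int.ediv_eq_zero_of_lt (by omega) (by omega)]
    ring
  have h2 : D.yQ / n = YQ := by
    rw [e2, Int.mul_ediv_cancel_left _ (by omega)]
  have g1 := C.a (D.yP - 1) (by omega) (by omega)
  have g2 := C.b D.yQ (by omega) (by omega)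
  rw [h1] at g1
  rw [h2] at g2
  have e : n * (B YQ - A (YP - 1) + 1) = n * B YQ - n * A (YP - 1) + n := by ring
  omega

/-- **Chapters A and B for a sequence of coarse windows.** -/
theorem aba_seq {D : ℕ → Win} {O : ∀ j, OutB (D j)} {H : ℤ} {A B : ℤ → ℤ} {YP YQ : ℤ}
    {CL CR : ℤ → Bool} (hC : ∀ j : ℕ, 30 ≤ j → CoarseC (D j) (2 * j) H A B YP YQ CL CR)
    (hcut : ∀ j : ℕ, 30 ≤ j → ∃ s0, colp (D j) (s0 - 1) ≠ colp (D j) s0)
    (hO : ∀ j : ℕ, 30 ≤ j → OutOK (O j) ((j : ℤ) / 2 - 4)) (hS : SameC (SQ D O)) {η : ℝ}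
    (hη : 0 < η) : ABA (SQ D O) η := by
  set K : ℕ := H.toNat + (B YQ - A (YP - 1) + 1).toNat + 8 with hK
  have hK0 : (0 : ℝ) < K := by rw [hK]; positivity
  have hK8 : (8 : ℝ) ≤ K := by rw [hK]; push_cast; linarith [(Nat.cast_nonneg H.toNat : (0 : ℝ) ≤ _),
    (Nat.cast_nonneg (B YQ - A (YP - 1) + 1).toNat : (0 : ℝ) ≤ _)]
  set η' : ℝ := min η (1 / K) with hη'
  have h0 : 0 < η' := by positivity
  have hk : η' ≤ 1 / K := min_le_right _ _
  have hk1 : η' * K ≤ 1 := by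
    calc η' * K ≤ 1 / K * K := mul_le_mul_of_nonneg_right hk hK0.le
      _ = 1 := by field_simp
  -- sizes
  have size : ∀ (j : ℕ) (z w : ℤ), z ≤ 2 * j * w → w ≤ K → (z : ℝ) ≤ ((2 * j : ℕ) : ℝ) / η' := by
    intro j z w h1 h2
    rw [le_div_iff₀ h0]
    have h3 : (z : ℝ) ≤ 2 * j * w := by exact_mod_cast h1
    have h4 : (w : ℝ) ≤ K := by exact_mod_cast h2
    have h5 : (z : ℝ) ≤ 2 * j * K := h3.trans (mul_le_mul_of_nonneg_left h4 (by positivity))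
    have h6 : (0 : ℝ) ≤ 2 * j := by positivity
    calc (z : ℝ) * η' ≤ 2 * j * K * η' := mul_le_mul_of_nonneg_right h5 h0.le
      _ = 2 * j * (η' * K) := by ring
      _ ≤ 2 * j * 1 := mul_le_mul_of_nonneg_left hk1 h6
      _ = ((2 * j : ℕ) : ℝ) := by push_cast; ring
  have hw : ∀ j : ℕ, 30 ≤ j → (((D j).b (D j).yQ - (D j).a ((D j).yP - 1) : ℤ) : ℝ) ≤
      ((2 * j : ℕ) : ℝ) / η' := fun j hj => size j _ _ (width_C (hC j hj)) (by omega)
  have hh : ∀ j : ℕ, 30 ≤ j → ((D j).h : ℝ) ≤ ((2 * j : ℕ) : ℝ) / η' := fun j hj =>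
    size j _ H (hC j hj).hh.le (by omega)
  have hHH : ∀ j : ℕ, 30 ≤ j → 0 < H := fun j hj => (hC j hj).HH
  refine aba_mono (η' := η') ?_ (min_le_left _ _)
  refine aba_of (n0 := 3 * (H.toNat + 1)) h0 ?_ hS ?_
  · rintro R v ⟨j, hj, rfl, rfl⟩
    have C := hC j hj
    have hH := hHH j hj
    refine ⟨⟨GC (D j) (2 * j) H, card_GC hH.le (by omega), (lev_C C).1⟩, hh j hj, hw j hj, 2 * j, ?_,
      fat_C C.toCoarse⟩
    have h1 : η' ≤ 1 := hk.trans (by rw [div_le_one hK0]; linarith)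
    push_cast
    calc η' * (2 * j) ≤ 1 * (2 * (j : ℝ)) := mul_le_mul_of_nonneg_right h1 (by positivity)
      _ = 2 * (j : ℝ) := one_mul _
  · refine lbw_mono (η' := η' / 2) (lbw_of (by positivity) (3 * (H.toNat + 1)) 0 ?_) le_rfl
    rintro R - v ⟨j, hj, rfl, rfl⟩
    have C := hC j hj
    have hH := hHH j hj
    obtain ⟨s0, hs0⟩ := hcut j hj
    have h2 : ((2 * j : ℕ) : ℝ) / η' ≤ ((2 * j : ℕ) : ℝ) / (η' / 2) :=
      div_le_div_of_nonneg_left (Nat.cast_nonneg _) (by positivity) (by linarith)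
    refine ⟨O j, rfl, s0, (j : ℤ) / 2 - 4, GC (D j) (2 * j) H, winX_C C (by omega) (by omega) (by omega) ?_
      ((hh j hj).trans h2) ((hw j hj).trans h2) hs0 (hO j hj)⟩
    have h3 : (j : ℤ) ≤ 4 * ((j : ℤ) / 2 - 4) := by omega
    have h4 : (j : ℝ) ≤ 4 * (((j : ℤ) / 2 - 4 : ℤ) : ℝ) := by exact_mod_cast h3
    have h5 : η' ≤ 1 / 8 := hk.trans (one_div_le_one_div_of_le (by norm_num) hK8)
    have h6 : (0 : ℝ) ≤ j := Nat.cast_nonneg _
    have h7 : η' * (j : ℝ) ≤ 1 / 8 * j := mul_le_mul_of_nonneg_right h5 h6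
    push_cast at h4 ⊢
    nlinarith

/-- **Chapters A and B for the windows of a shape** (`SQ (fun j => winOf F (max j 30) _) O` is `SW F O`). -/
theorem aba_shape {S : Shape} {y0 y1 : ℤ} {a b : ℤ → ℤ} {yP yQ : ℤ}
    (F : RowF S.P.Q y0 y1 a b yP yQ) {O : ∀ j : ℕ, OutB (winOf F (max j 30) (by omega))}
    (hcut : ∀ j : ℕ, 30 ≤ j → ∃ s0, colp (winOf F (max j 30) (by omega)) (s0 - 1) ≠
      colp (winOf F (max j 30) (by omega)) s0)
    (hO : ∀ j : ℕ, 30 ≤ j → OutOK (O j) ((j : ℤ) / 2 - 4))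
    (hS : SameC (SQ (fun j => winOf F (max j 30) (by omega)) O)) :
    ∀ η > 0, ABA (SQ (fun j => winOf F (max j 30) (by omega)) O) η := by
  intro η hη
  refine aba_seq (H := y1 - y0) (A := fun Y => a (Y + y0)) (B := fun Y => b (Y + y0))
    (YP := yP - y0) (YQ := yQ - y0) (CL := fun Y => cL S a (Y + y0)) (CR := fun Y => cR S b (Y + y0))
    (fun j hj => ?_) hcut hO hS hη
  have h := winOf_coarseC F (n := max j 30) (by omega) (by omega)
  have e : ((2 : ℤ) * ((max j 30 : ℕ) : ℤ)) = 2 * (j : ℤ) := by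
    rw [max_eq_left hj]
  rw [e] at h
  exact h

end Pool.Agent.H56.Sp
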